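import Mathlib

open Finset

namespace Pool.Agent.Results.MP_34a732_nt.Fails

def bin (a : ℚ) (k : ℕ) : ℚ := (∏ i ∈ range k, (a - i)) / k.factorial

def Cg (p m : ℕ) (u v : ℚ) : Prop := (p : ℤ) ^ m ∣ (u - v).num

def Lg (r : ℚ) (p : ℕ) : ℤ := jacobiSym (r.num * r.den) p

def S1 (p : ℕ) : ℚ := ∑ k ∈ range p, bin (-1 / 3) k * bin (-1 / 6) k * (27 / 16) ^ k
def S2 (p : ℕ) : ℚ := ∑ k ∈ range p, bin (-2 / 3) k * bin (-5 / 6) k * (27 / 16) ^ k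

theorem result : ¬ ∀ p : ℕ, p.Prime → 11 < p → jacobiSym p 11 = 1 →
    ∀ x y : ℤ, 4 * (p : ℤ) = x ^ 2 + 11 * y ^ 2 →
      Cg p 2 (S1 p) ((if p % 3 = 1 then 1 else -11 / 16) * S2 p) ∧
      (p % 3 = 1 → Cg p 2 (S1 p) (-Lg (-11 + x / y) p * jacobiSym x 11 * (x - p / x))) ∧
      (p % 3 = 2 →
        Cg p 2 (S1 p) (-1 / 4 * Lg (-11 + jacobiSym x 11 * x / y) p * (11 * y - p / y))) := by
  intro h
  have h1 := (h 31 (by norm_num) (by norm_num) (by norm_num) 5 3 (by norm_num)).2.1 rfl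
  have hj : Lg (-11 + ((5 : ℤ) : ℚ) / ((3 : ℤ) : ℚ)) 31 = 1 := by
    have : (-11 + ((5 : ℤ) : ℚ) / ((3 : ℤ) : ℚ)) = -28 / 3 := by norm_num
    rw [this, Lg]
    norm_num
  have hk : jacobiSym 5 11 = 1 := by norm_num
  rw [hj, hk] at h1
  revert h1
  unfold Cg S1 bin
  decide +kernel

end Pool.Agent.Results.MP_34a732_nt.Fails
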